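import Pool.Agent.MP_bac99f_ag.H96.Final

/-! The variety is smooth over the base field. -/

namespace Pool.Agent.MP_bac99f_ag.H70

open Polynomial Pool.Agent.MP_bac99f_ag.H96 Pool.Agent.MP_bac99f_ag.H96.Var

lemma conic_smooth {A A' : Type} [CommRing A] [CommRing A'] [Algebra A A'] {τ : A} {x y : A'}
    (c : IsConic (algebraMap A A') τ x y) (h : A) (h2 : 2 * h = 1) :
    Algebra.FormallySmooth A A' := by
  refine .of_comp_surjective fun B _ _ I hI g => ?_
  obtain ⟨a, ha⟩ := Ideal.Quotient.mk_surjective (g x)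
  obtain ⟨b, hb⟩ := Ideal.Quotient.mk_surjective (g y)
  obtain ⟨e, he⟩ : ∃ e, e = a * a - (algebraMap A B τ * (b * b) + 1) := ⟨_, rfl⟩
  have e0 : Ideal.Quotient.mk I e = 0 := by
    have := congrArg g c.rel
    rw [map_add, map_mul, map_mul, map_mul, map_one, g.commutes] at this
    rw [he, map_sub, map_add, map_mul, map_mul, map_mul, map_one, ha, hb, this]
    exact sub_self _
  have e1 : e * e = 0 := by
    have := Ideal.Quotient.eq_zero_iff_mem.1 e0
    rw [← Ideal.mem_bot, ← hI, sq]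
    exact Ideal.mul_mem_mul this this
  have hh : 2 * algebraMap A B h = 1 := by simpa [map_ofNat] using congrArg (algebraMap A B) h2
  obtain ⟨F, f1, f2, f3⟩ := c.lift B (algebraMap A B) (a * (1 - algebraMap A B h * e))
    (b * (1 - algebraMap A B h * e)) (by
      linear_combination (-(1 - algebraMap A B h * e) ^ 2) * he - e * hh +
        (algebraMap A B h ^ 2 * (1 + e) - 2 * algebraMap A B h) * e1)
  refine ⟨⟨F, f1⟩, AlgHom.coe_ringHom_injective (c.ext _ _ _ (fun r => ?_) ?_ ?_)⟩
  · simp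
  · change Ideal.Quotient.mk I (F x) = g x
    rw [f2, map_mul, map_sub, map_mul, e0, ha, mul_zero, sub_zero, map_one, mul_one]
  · change Ideal.Quotient.mk I (F y) = g y
    rw [f3, map_mul, map_sub, map_mul, e0, hb, mul_zero, sub_zero, map_one, mul_one]

lemma step (k A : Type) [Field k] [CommRing A] [Algebra k A] [Algebra.Smooth k A]
    [IsRegularRing A] [IsDomain A] (h : A) (h2 : 2 * h = 1) (τ : A) (hτ : τ ≠ 0) :
    ∃ (A' : Type) (_ : CommRing A') (_ : Algebra k A'),
      Algebra.Smooth k A' ∧ IsRegularRing A' ∧ IsDomain A' ∧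
      ringKrullDim A' = ringKrullDim A + 1 ∧
      ∃ (i : A →+* A') (x y : A'), Function.Injective i ∧ IsConic i τ x y := by
  have hft : Algebra.FiniteType k (Con A τ) :=
    Algebra.FiniteType.trans (S := A[X]) (Algebra.FiniteType.trans (S := A) inferInstance
      inferInstance) inferInstance
  have : IsNoetherianRing (Con A τ) := Algebra.FiniteType.isNoetherianRing k _
  have : Algebra.FormallySmooth A (Con A τ) := conic_smooth (con_isConic τ) h h2
  refine ⟨Con A τ, inferInstance, inferInstance,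
    ⟨.comp k A _, Algebra.FinitePresentation.of_finiteType.1 hft⟩, (con_isConic τ).regular h h2,
    (con_isConic τ).domain h h2 (con_nzd τ hτ), ?_, _, _, _, ?_, con_isConic τ⟩
  · rw [dim_integral A[X] _ QuadraticAlgebra.algebraMap_injective,
      Polynomial.ringKrullDim_of_isNoetherianRing]
  · exact QuadraticAlgebra.algebraMap_injective.comp C_injective

lemma tower (k : Type) [Field k] (h2 : (2 : k) ≠ 0) (m : ℕ) :
    ∃ (R : Type) (_ : CommRing R) (_ : Algebra k R),
      Algebra.Smooth k R ∧ IsRegularRing R ∧ IsDomain R ∧ ringKrullDim R = (m + 2 : ℕ) ∧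
      ∃ (t u v : R) (x y : Fin m → R), t ≠ 0 ∧ u * v = 1 ∧
        (∀ i, x i * x i = t * (y i * y i) + 1) ∧
        ∀ (B : Type) [CommRing B] [Algebra k B] (t' u' v' : B) (x' y' : Fin m → B), u' * v' = 1 →
          (∀ i, x' i * x' i = t' * (y' i * y' i) + 1) →
          ∃ F : R →+* B, F t = t' ∧ F u = u' ∧ (∀ i, F (x i) = x' i) ∧ ∀ i, F (y i) = y' i := by
  have half : ∀ (B : Type) [CommRing B] [Algebra k B], 2 * algebraMap k B 2⁻¹ = 1 := by
    intro B _ _
    rw [← map_ofNat (algebraMap k B) 2, ← map_mul, mul_inv_cancel₀ h2, map_one]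
  induction m with
  | zero =>
    have : Algebra.Smooth k k[X] := {}
    obtain ⟨R, _, _, a1, a2, a3, a4, i, x, y, hi, c⟩ := H70.step k k[X] _ (half _) 1 one_ne_zero
    refine ⟨R, inferInstance, inferInstance, a1, a2, a3, ?_, i X, x + y, x - y, Fin.elim0,
      Fin.elim0, ?_, ?_, fun i => i.elim0, ?_⟩
    · rw [a4, Polynomial.ringKrullDim_of_isNoetherianRing, ringKrullDim_eq_zero_of_field]
      rfl
    · exact fun h => X_ne_zero (hi (h.trans (map_zero i).symm))
    · have := c.rel
      rw [map_one] at this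
      linear_combination this
    · intro B _ _ t' u' v' x' y' huv _
      have hh := half B
      set h := algebraMap k B 2⁻¹
      obtain ⟨F, f1, f2, f3⟩ := c.lift B (eval₂RingHom (algebraMap k B) t') (h * (u' + v'))
        (h * (u' - v')) (by
          rw [map_one]
          linear_combination (4 * h ^ 2) * huv + (2 * h + 1) * hh)
      refine ⟨F, by simp [f1], ?_, fun i => i.elim0, fun i => i.elim0⟩
      rw [map_add, f2, f3]
      linear_combination u' * hh
  | succ m ih =>
    obtain ⟨A, _, _, b1, b2, b3, b4, t, u, v, x, y, ht, huv, hrel, huniv⟩ := ih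
    obtain ⟨R, _, _, a1, a2, a3, a4, i, x₀, y₀, hi, c⟩ := H70.step k A _ (half _) t ht
    refine ⟨R, inferInstance, inferInstance, a1, a2, a3, ?_, i t, i u, i v,
      Fin.cons x₀ (fun j => i (x j)), Fin.cons y₀ (fun j => i (y j)), ?_, ?_, ?_, ?_⟩
    · rw [a4, b4]
      push_cast
      ring
    · exact fun h => ht (hi (h.trans (map_zero i).symm))
    · rw [← map_mul, huv, map_one]
    · refine Fin.cases c.rel fun j => ?_
      simpa using congrArg i (hrel j)
    · intro B _ _ t' u' v' x' y' huv' hrel'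
      obtain ⟨f, f1, f2, f3, f4⟩ := huniv B t' u' v' (fun j => x' j.succ) (fun j => y' j.succ)
        huv' fun j => hrel' j.succ
      obtain ⟨F, F1, F2, F3⟩ := c.lift B f (x' 0) (y' 0) (by rw [f1]; exact hrel' 0)
      refine ⟨F, by rw [F1, f1], by rw [F1, f2], Fin.cases F2 fun j => ?_,
        Fin.cases F3 fun j => ?_⟩
      · simp [F1, f3]
      · simp [F1, f4]

theorem variety (k : Type) [Field k] (h2 : (2 : k) ≠ 0) (m : ℕ) :
    ∃ (R : Type) (_ : CommRing R) (_ : Algebra k R),
      Algebra.Smooth k R ∧ IsRegularRing R ∧ IsDomain R ∧ ringKrullDim R = (m + 2 : ℕ) ∧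
      ∃ (P : Type) (_ : AddCommGroup P) (_ : Module R P),
        Module.Finite R P ∧ Module.Projective R P ∧
        (∀ p : PrimeSpectrum R, Module.rankAtStalk P p = m) ∧
        Nonempty ((P × (Fin 1 → R)) ≃ₗ[R] (Fin (m + 1) → R)) ∧
        (Module.Free R P → ∀ (B : Type) [CommRing B] [Algebra k B] (t u v h : B)
          (x y : Fin m → B), 2 * h = 1 → u * v = 1 → (∀ i, x i * x i = t * (y i * y i) + 1) →
          ∃ M M' : Matrix (Fin (m + 1)) (Fin (m + 1)) B, M * M' = 1 ∧ M' * M = 1 ∧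
            M 0 = Fin.cons (1 + (u - 1) * ∏ i, (h * (1 + x i))) y) := by
  obtain ⟨R, _, _, a1, a2, a3, a4, t, u, v, x, y, -, huv, hrel, huniv⟩ := H70.tower k h2 m
  have hh : 2 * algebraMap k R 2⁻¹ = 1 := by
    rw [← map_ofNat (algebraMap k R) 2, ← map_mul, mul_inv_cancel₀ h2, map_one]
  set h := algebraMap k R 2⁻¹
  obtain ⟨b, hb⟩ := Var.row_unimodular t u v h x y hh huv hrel
  obtain ⟨P, _, _, p1, p2, p3, p4, p5⟩ := Var.kernel_row _ b hb
  refine ⟨R, inferInstance, inferInstance, a1, a2, a3, a4, P, inferInstance, inferInstance,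
    p1, p2, p3, p4, fun hfree B _ _ t' u' v' h' x' y' hh' huv' hrel' => ?_⟩
  obtain ⟨M, M', m1, m2, m3⟩ := p5 hfree
  obtain ⟨F, -, f2, f3, f4⟩ := huniv B t' u' v' x' y' huv' hrel'
  have hF : F h = h' := by
    have := congrArg F hh
    rw [map_mul, map_ofNat, map_one] at this
    linear_combination h' * this - F h * hh'
  refine ⟨M.map F, M'.map F, ?_, ?_, ?_⟩
  · rw [← Matrix.map_mul, m1, Matrix.map_one _ F.map_zero F.map_one]
  · rw [← Matrix.map_mul, m2, Matrix.map_one _ F.map_zero F.map_one]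
  · ext j
    rw [Matrix.map_apply, m3]
    refine Fin.cases ?_ (fun j => ?_) j
    · simp [f2, f3, hF]
    · simp [f4]

theorem exists_module (k : Type) [Field k] (h2 : (2 : k) ≠ 0) (m : ℕ) (hm : 2 ≤ m) :
    ∃ (R : Type) (_ : CommRing R) (_ : Algebra k R),
      Algebra.Smooth k R ∧ IsRegularRing R ∧ IsDomain R ∧ ringKrullDim R = (m + 2 : ℕ) ∧
      ∃ (P : Type) (_ : AddCommGroup P) (_ : Module R P),
        Module.Finite R P ∧ Module.Projective R P ∧
        (∀ p : PrimeSpectrum R, Module.rankAtStalk P p = m) ∧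
        Nonempty ((P × (Fin 1 → R)) ≃ₗ[R] (Fin (m + 1) → R)) ∧ ¬ Module.Free R P := by
  obtain ⟨R, _, _, h1, h3, h4, h5, P, _, _, h6, h7, h8, h9, h10⟩ := H70.variety k h2 m
  refine ⟨R, _, _, h1, h3, h4, h5, P, _, _, h6, h7, h8, h9, fun hP => ?_⟩
  have hX : ¬ IsSquare (RatFunc.X : RatFunc k) := by
    rintro ⟨r, hr⟩
    have h0 : r ≠ 0 := by
      rintro rfl
      exact RatFunc.X_ne_zero (by simpa using hr)
    have := congrArg RatFunc.intDegree hr
    rw [RatFunc.intDegree_mul h0 h0, RatFunc.intDegree_X] at this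
    omega
  have h2' : (2 : RatFunc k) ≠ 0 := by
    rw [← map_ofNat (algebraMap k (RatFunc k)) 2]
    exact (_root_.map_ne_zero _).mpr h2
  obtain ⟨A, _, _, f, c, τ, χ, -, hτ, hy, hχ, hres⟩ := exists_stage h2' hX (m + 1)
  let φ := algebraMap A (Localization.Away (c 0).y)
  let : Algebra k (Localization.Away (c 0).y) :=
    (φ.comp (f.comp (algebraMap k (RatFunc k)))).toAlgebra
  obtain ⟨M, M', hM, hM', h0⟩ := h10 hP (Localization.Away (c 0).y) (φ τ) (φ (c 0).y)
    (IsLocalization.Away.invSelf (c 0).y) (φ (c 0).h) (fun i => φ (c i.succ).x)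
    (fun i => φ (c i.succ).y) ((c 0).map _).hh (IsLocalization.Away.mul_invSelf _)
    fun i => hτ i.succ ▸ ((c i.succ).map _).rel
  refine obstruction hm c χ hτ hy hχ hres M M' hM hM' (h0.trans (funext fun j => ?_))
  refine Fin.cases ?_ (fun j => rfl) j
  simp [φ]

end Pool.Agent.MP_bac99f_ag.H70
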